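import Mathlib

set_option autoImplicit false

namespace Pool.Agent.Results.MP_ed45fc_co.EightOrMore

open SimpleGraph

/-- `P` is an `H`-scheme in `G`, the vertices of `H` sitting in `G` through `r`. (Condition 2 of the
problem is asked for all sets of edges, finite or not; `P v u` is `P u v` read backwards.) -/
def IsScheme {V W : Type} (G : SimpleGraph V) (H : SimpleGraph W) (r : W ↪ V)
    (P : ∀ u v, H.Adj u v → G.Walk (r u) (r v)) : Prop :=
  (∀ u v h, P v u (H.adj_symm h) = (P u v h).reverse) ∧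
  (∀ u v h, (P u v h).IsPath ∧ ∀ w, r w ∈ (P u v h).support → w = u ∨ w = v) ∧
  ∀ S : Set H.Dart, S.Nonempty → (∃ x, ∀ e ∈ S, x ∈ (P e.fst e.snd e.adj).support) →
    ∃ w, ∀ e ∈ S, w = e.fst ∨ w = e.snd

/-- `G` has an `H`-minor: pairwise disjoint sets of vertices `C v`, `v ∈ V(H)`, each of which induces a
connected subgraph of `G`, with an edge of `G` between `C u` and `C v` for every edge `uv` of `H`. -/
def HasMinor {V W : Type} (G : SimpleGraph V) (H : SimpleGraph W) : Prop :=
  ∃ C : W → Set V, (∀ v, (G.induce (C v)).Connected) ∧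
    (∀ u v, u ≠ v → Disjoint (C u) (C v)) ∧
    ∀ u v, H.Adj u v → ∃ x ∈ C u, ∃ y ∈ C v, G.Adj x y

/-- Every finite graph that contains an `H`-scheme has an `H`-minor. -/
def WeaklyContractible {W : Type} (H : SimpleGraph W) : Prop :=
  ∀ (V : Type) [Finite V] (G : SimpleGraph V) (r : W ↪ V)
    (P : ∀ u v, H.Adj u v → G.Walk (r u) (r v)), IsScheme G H r P → HasMinor G H

/-! ### The graph on fifteen vertices -/

/-- the theta graph: `0` and `1` joined by paths of lengths `2`, `3`, `3` -/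
def E : List (ℕ × ℕ) := [(3, 4), (5, 6), (0, 2), (1, 2), (0, 3), (0, 5), (1, 4), (1, 6)]
def th (a b : ℕ) : Bool := E.contains (a, b) || E.contains (b, a)
/-- roots `0, …, 6` and `14`, further vertices `7, …, 13` -/
def ad (a b : ℕ) : Bool := a != b && a < 15 && b < 15 &&
  if a < 7 then (if b < 7 then !th a b else if b < 14 then th a (b - 7) else true)
  else if a < 14 then (if b < 14 then th (a - 7) (b % 7) else false) else b < 7

def G : SimpleGraph (Fin 15) where
  Adj a b := ad a b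
  symm := ⟨by decide +kernel⟩
  loopless := ⟨by decide +kernel⟩

instance : DecidableRel G.Adj := fun a b => inferInstanceAs (Decidable (ad a b = true))

/-! ### The refutation -/

def cf (l m : ℕ × ℕ) : Bool :=
  if l.1 == 15 then m.1 != 15 && l.2 == m.2 else if m.1 == 15 then l.2 == m.2 else
    l.1 == m.1 && l.2 != m.2
def sat (s : List (ℕ × ℕ)) (c : List (List (ℕ × ℕ))) : Bool :=
  c.any fun t => t.all fun l => s.any fun m => l.1 == m.1 && l.2 == m.2
def live (s : List (ℕ × ℕ)) (c : List (List (ℕ × ℕ))) : List (List (ℕ × ℕ)) :=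
  c.filter fun t => !(t.any fun l => s.any (cf l))
def pick : List (List (List (ℕ × ℕ))) → Option (List (List (ℕ × ℕ)))
  | [] => none
  | c :: cs => match pick cs with
    | none => some c
    | some d => if d.length < c.length then some d else some c
def go : ℕ → List (ℕ × ℕ) → List (List (List (ℕ × ℕ))) → Bool
  | 0, _, _ => false
  | k + 1, s, cs => match pick ((cs.filter fun c => !sat s c).map (live s)) with
    | none => false
    | some c => c.all fun t => go k (t ++ s) ((cs.filter fun c => !sat s c).map (live s))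

lemma pick_mem (cs : List (List (List (ℕ × ℕ)))) (c) (h : pick cs = some c) : c ∈ cs := by
  induction cs generalizing c with
  | nil => simp [pick] at h
  | cons a cs ih =>
    unfold pick at h
    cases hd : pick cs with
    | none =>
      rw [hd] at h
      simp only [Option.some.injEq] at h
      exact h ▸ List.mem_cons_self
    | some d =>
      rw [hd] at h
      simp only at h
      split_ifs at h
      · simp only [Option.some.injEq] at h
        exact List.mem_cons_of_mem _ (ih c (h ▸ hd))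
      · simp only [Option.some.injEq] at h
        exact h ▸ List.mem_cons_self

def lit (fr : ℕ → Prop) (φ : ℕ → ℕ) (l : ℕ × ℕ) : Prop :=
  if l.1 = 15 then ∀ y, fr y → φ y ≠ l.2 else fr l.1 ∧ φ l.1 = l.2

lemma not_cf (fr : ℕ → Prop) (φ : ℕ → ℕ) (l m : ℕ × ℕ) (hl : lit fr φ l) (hm : lit fr φ m) :
    cf l m = false := by
  unfold lit at hl hm
  unfold cf
  by_cases e1 : l.1 = 15 <;> by_cases e2 : m.1 = 15
  · simp [e1, e2]
  · rw [if_pos e1] at hl
    rw [if_neg e2] at hm
    have := hl _ hm.1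
    rw [hm.2] at this
    simp [e1, e2, Ne.symm this]
  · rw [if_neg e1] at hl
    rw [if_pos e2] at hm
    have := hm _ hl.1
    rw [hl.2] at this
    simp [e1, e2, this]
  · rw [if_neg e1] at hl
    rw [if_neg e2] at hm
    by_cases e3 : l.1 = m.1
    · have : l.2 = m.2 := by rw [← hl.2, ← hm.2, e3]
      simp [e1, e2, this]
    · simp [e1, e2, e3]

theorem go_ok (fr : ℕ → Prop) (φ : ℕ → ℕ) (k : ℕ) (s : List (ℕ × ℕ))
    (cs : List (List (List (ℕ × ℕ))))
    (h : go k s cs = true) (hs : ∀ l ∈ s, lit fr φ l)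
    (hc : ∀ c ∈ cs, ∃ t ∈ c, ∀ l ∈ t, lit fr φ l) : False := by
  induction k generalizing s cs with
  | zero => simp [go] at h
  | succ k ih =>
    have hc' : ∀ c ∈ (cs.filter fun c => !sat s c).map (live s), ∃ t ∈ c, ∀ l ∈ t, lit fr φ l := by
      intro c hcm
      obtain ⟨d, hd, rfl⟩ := List.mem_map.1 hcm
      obtain ⟨t, ht, hl⟩ := hc d (List.mem_filter.1 hd).1
      refine ⟨t, List.mem_filter.2 ⟨ht, ?_⟩, hl⟩
      rw [Bool.not_eq_true', List.any_eq_false]
      intro l hlt
      rw [Bool.not_eq_true, List.any_eq_false]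
      intro m hm
      rw [not_cf fr φ l m (hl l hlt) (hs m hm)]
      exact Bool.false_ne_true
    unfold go at h
    cases hp : pick ((cs.filter fun c => !sat s c).map (live s)) with
    | none => rw [hp] at h; simp at h
    | some c =>
      rw [hp] at h
      simp only [List.all_eq_true] at h
      obtain ⟨t, ht, hl⟩ := hc' c (pick_mem _ _ hp)
      exact ih _ _ (h t ht) (fun l hm => (List.mem_append.1 hm).elim (hl l) (hs l)) hc'

def fre (x : ℕ) : List ℕ := (List.range 15).filter fun y => y != x && !ad x y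
def rts (x : ℕ) : List ℕ := (List.range 15).filter (ad x)
def cN (x v : ℕ) : List (List (ℕ × ℕ)) := [(15, v)] :: ((fre x).filter (ad v)).map fun y => [(y, v)]
def cE (x : ℕ) (e : ℕ × ℕ) : List (List (ℕ × ℕ)) :=
  ((fre x).filter (ad e.1)).map (fun y => [(y, e.2)]) ++
  ((fre x).filter (ad e.2)).map (fun y => [(y, e.1)]) ++
  (fre x).flatMap fun y => ((fre x).filter (ad y)).map fun z => [(y, e.1), (z, e.2)]
def prs (x : ℕ) : List (ℕ × ℕ) :=
  (rts x).flatMap fun a => ((rts x).filter fun b => decide (a < b) && !ad a b).map fun b => (a, b)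
def cls (x : ℕ) : List (List (List (ℕ × ℕ))) := (rts x).map (cN x) ++ (prs x).map (cE x)

theorem unsat : ∀ x : Fin 15, (rts x).length = 7 → go 30 [] (cls x) = true := by decide +kernel

theorem deg_le : ∀ x : Fin 15, (rts x).length ≤ 7 := by decide +kernel

theorem deg_eq : ∀ x : Fin 15, Fintype.card {v // G.Adj x v} = (rts x).length := by decide +kernel

theorem no_minor : ¬ HasMinor G (⊤ : SimpleGraph (Fin 8)) := by
  classical
  rintro ⟨C, c1, c2, c3⟩
  have uq : ∀ x u v, x ∈ C u → x ∈ C v → u = v := fun x u v a b =>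
    by_contra fun n => Set.disjoint_left.1 (c2 u v n) a b
  -- one of the classes is a singleton
  obtain ⟨i, x, hx⟩ : ∃ i x, C i = {x} := by
    by_contra! k
    have k1 : ∀ i, ∃ a b, a ∈ C i ∧ b ∈ C i ∧ a ≠ b := by
      intro i
      obtain ⟨⟨a, ha⟩⟩ := (c1 i).nonempty
      by_contra! n
      exact k i a (Set.eq_singleton_iff_unique_mem.2 ⟨ha, fun b hb => (n a b ha hb).symm⟩)
    choose a b ha hb hab using k1
    have hinj : Function.Injective fun t : Fin 8 × Bool => if t.2 then a t.1 else b t.1 := by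
      rintro ⟨i, s⟩ ⟨j, t⟩ h
      have hi : (if s then a i else b i) ∈ C i := by split_ifs <;> simp [ha, hb]
      have hj : (if t then a j else b j) ∈ C j := by split_ifs <;> simp [ha, hb]
      simp only at h
      have hij : i = j := uq _ _ _ hi (h ▸ hj)
      subst hij
      cases s <;> cases t <;> simp_all
      exact absurd h.symm (hab i)
    have := Fintype.card_le_of_injective _ hinj
    simp at this
  have hxi : x ∈ C i := hx ▸ rfl
  have hy : ∀ j : {j // i ≠ j}, ∃ y : {v // G.Adj x v}, y.1 ∈ C j.1 := by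
    rintro ⟨j, hj⟩
    obtain ⟨x', h1, y, h2, h3⟩ := c3 i j hj
    rw [hx, Set.mem_singleton_iff] at h1
    subst h1
    exact ⟨⟨y, h3⟩, h2⟩
  choose f hf using hy
  have finj : Function.Injective f := fun j j' h =>
    Subtype.ext (uq _ _ _ (hf j) (h ▸ hf j'))
  have hcj : Fintype.card {j // i ≠ j} = 7 := by
    have h8 : ∀ i : Fin 8, Fintype.card {j // i ≠ j} = 7 := by decide
    convert h8 i
  have hle := Fintype.card_le_of_injective _ finj
  rw [hcj, deg_eq x] at hle
  have h7 : (rts x).length = 7 := le_antisymm (deg_le x) hle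
  have fsurj : Function.Surjective f :=
    ((Fintype.bijective_iff_injective_and_card f).2 ⟨finj, by rw [hcj, deg_eq x, h7]⟩).2
  have hroot : ∀ v, G.Adj x v → ∃ j, i ≠ j ∧ v ∈ C j ∧ ∀ v', G.Adj x v' → v' ∈ C j → v' = v := by
    intro v hv
    obtain ⟨j, hj⟩ := fsurj ⟨v, hv⟩
    have e1 : (f j).1 = v := congrArg Subtype.val hj
    refine ⟨j.1, j.2, e1 ▸ hf j, fun v' hv' hm => ?_⟩
    obtain ⟨j', hj'⟩ := fsurj ⟨v', hv'⟩
    have e2 : (f j').1 = v' := congrArg Subtype.val hj'
    have : j = j' := Subtype.ext (uq v' _ _ hm (e2 ▸ hf j'))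
    rw [← e1, ← e2, this]
  have hφ' : ∀ n : ℕ, ∃ m : ℕ, ∀ (h : n < 15) (w : Fin 15), G.Adj x w →
      ((∃ j, w ∈ C j ∧ (⟨n, h⟩ : Fin 15) ∈ C j) ↔ m = w) := by
    intro n
    by_cases k : ∃ (h : n < 15) (w : Fin 15), G.Adj x w ∧ ∃ j, w ∈ C j ∧ (⟨n, h⟩ : Fin 15) ∈ C j
    · obtain ⟨h, w, hw, j, k1, k2⟩ := k
      refine ⟨w, fun _ w' hw' => ⟨?_, ?_⟩⟩
      · rintro ⟨j', k3, k4⟩
        have e : j = j' := uq _ _ _ k2 k4
        subst e
        obtain ⟨j0, -, h2, h3⟩ := hroot w hw
        have e : j0 = j := uq _ _ _ h2 k1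
        subst e
        rw [h3 w' hw' k3]
      · intro e
        have e : w = w' := Fin.ext e
        subst e
        exact ⟨j, k1, k2⟩
    · refine ⟨15, fun h w hw => ⟨fun k1 => absurd ⟨h, w, hw, k1⟩ k, fun e => ?_⟩⟩
      have := w.2
      omega
  choose φ hφ using hφ'
  have mem : ∀ w, G.Adj x w → ∀ j, w ∈ C j → ∀ z ∈ C j, z = w ∨ (z.1 ∈ fre x ∧ φ z.1 = w.1) := by
    intro w hw j hj z hz
    by_cases h1 : G.Adj x z
    · left
      obtain ⟨j0, -, h2, h3⟩ := hroot w hw
      have e : j0 = j := uq _ _ _ h2 hj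
      subst e
      exact h3 z h1 hz
    · right
      refine ⟨?_, (hφ z.1 z.2 w hw).1 ⟨j, hj, hz⟩⟩
      unfold fre
      rw [List.mem_filter, List.mem_range]
      refine ⟨z.2, ?_⟩
      have h2 : z ≠ x := by
        rintro rfl
        have e : i = j := uq _ _ _ hxi hz
        subst e
        rw [hx, Set.mem_singleton_iff] at hj
        rw [hj] at hw
        exact G.irrefl hw
      have h3 : z.1 ≠ x.1 := fun e => h2 (Fin.ext e)
      have h4 : ad x z = false := by simpa [G] using h1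
      simp [h3, h4]
  have L : ∀ z v : ℕ, z ∈ fre x → φ z = v → lit (· ∈ fre x) φ (z, v) := by
    intro z v h1 h2
    have : z ≠ 15 := by
      have := List.mem_range.1 (List.mem_filter.1 h1).1
      omega
    simp only [lit, this, if_false]
    exact ⟨h1, h2⟩
  have hrt : ∀ v ∈ rts x, ∃ h : v < 15, G.Adj x ⟨v, h⟩ := by
    intro v hv
    obtain ⟨h1, h2⟩ := List.mem_filter.1 hv
    exact ⟨List.mem_range.1 h1, h2⟩
  refine go_ok (· ∈ fre x) φ 30 [] (cls x) (unsat x h7) (by simp) fun c hc => ?_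
  rcases List.mem_append.1 hc with k | k
  · obtain ⟨v, hv, rfl⟩ := List.mem_map.1 k
    obtain ⟨hv1, hv2⟩ := hrt v hv
    by_cases n : ∀ y, y ∈ fre x → φ y ≠ v
    · exact ⟨_, List.mem_cons_self, by simpa [lit] using n⟩
    push Not at n
    obtain ⟨y, hy, e⟩ := n
    have hy15 : y < 15 := List.mem_range.1 (List.mem_filter.1 hy).1
    obtain ⟨j, m1, m2⟩ := (hφ y hy15 ⟨v, hv1⟩ hv2).2 e
    obtain ⟨w⟩ := (c1 j).preconnected ⟨_, m1⟩ ⟨_, m2⟩
    have hne : (⟨⟨v, hv1⟩, m1⟩ : C j) ≠ ⟨⟨y, hy15⟩, m2⟩ := by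
      intro e
      have e : v = y := congrArg (fun z : C j => z.1.1) e
      subst e
      have := (List.mem_filter.1 hy).2
      have h5 : ad x v = true := hv2
      simp [h5] at this
    obtain ⟨z, hz, -⟩ := Walk.exists_eq_cons_of_ne hne w
    have hz : G.Adj ⟨v, hv1⟩ z.1 := hz
    rcases mem ⟨v, hv1⟩ hv2 j m1 z z.2 with k | ⟨h1, h2⟩
    · rw [k] at hz
      exact absurd hz G.irrefl
    · refine ⟨[(z.1.1, v)], List.mem_cons_of_mem _ (List.mem_map.2 ⟨z.1.1, ?_, rfl⟩), ?_⟩
      · exact List.mem_filter.2 ⟨h1, hz⟩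
      · simpa using L _ _ h1 h2
  · obtain ⟨⟨a, b⟩, he, rfl⟩ := List.mem_map.1 k
    obtain ⟨a', ha, he⟩ := List.mem_flatMap.1 he
    obtain ⟨b', hb, he⟩ := List.mem_map.1 he
    obtain ⟨rfl, rfl⟩ : a' = a ∧ b' = b := by simpa using he
    obtain ⟨hb, hb'⟩ := List.mem_filter.1 hb
    obtain ⟨hb1, hb2⟩ : a' < b' ∧ ad a' b' = false := by simpa using hb'
    obtain ⟨p1, p2⟩ := hrt a' ha
    obtain ⟨q1, q2⟩ := hrt b' hb
    obtain ⟨ja, -, ha2, ha3⟩ := hroot _ p2
    obtain ⟨jb, -, hb3, hb4⟩ := hroot _ q2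
    have hne : ja ≠ jb := by
      rintro rfl
      have := ha3 _ q2 hb3
      have := congrArg Fin.val this
      simp only at this
      omega
    obtain ⟨s, hs, t, ht, hst⟩ := c3 ja jb hne
    rcases mem _ p2 ja ha2 s hs with h1 | ⟨h1, h2⟩ <;>
      rcases mem _ q2 jb hb3 t ht with h3 | ⟨h3, h4⟩
    · rw [h1, h3] at hst
      have : ad a' b' = true := hst
      rw [hb2] at this
      exact absurd this (by simp)
    · refine ⟨[(t.1, b')], ?_, by simpa using L _ _ h3 h4⟩
      refine List.mem_append_left _ (List.mem_append_left _ (List.mem_map.2 ⟨t.1, ?_, rfl⟩))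
      rw [h1] at hst
      exact List.mem_filter.2 ⟨h3, hst⟩
    · refine ⟨[(s.1, a')], ?_, by simpa using L _ _ h1 h2⟩
      refine List.mem_append_left _ (List.mem_append_right _ (List.mem_map.2 ⟨s.1, ?_, rfl⟩))
      rw [h3] at hst
      exact List.mem_filter.2 ⟨h1, hst.symm⟩
    · refine ⟨[(s.1, a'), (t.1, b')], List.mem_append_right _ (List.mem_flatMap.2
        ⟨s.1, h1, List.mem_map.2 ⟨t.1, List.mem_filter.2 ⟨h3, hst⟩, rfl⟩⟩), ?_⟩
      simpa using ⟨L _ _ h1 h2, L _ _ h3 h4⟩

/-! ### More vertices adjacent to everything -/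

/-- the graph on `n + 7` vertices: `G` and `n - 8` vertices which are adjacent to everything -/
def GG (n : ℕ) : SimpleGraph (Fin (n + 7)) where
  Adj a b := a ≠ b ∧ (15 ≤ a.1 ∨ 15 ≤ b.1 ∨ ad a b = true)
  symm := ⟨by
    rintro a b ⟨h1, h2⟩
    refine ⟨h1.symm, ?_⟩
    by_cases ha : 15 ≤ a.1
    · exact Or.inr (Or.inl ha)
    by_cases hb : 15 ≤ b.1
    · exact Or.inl hb
    have h3 : ad a b = true := by
      rcases h2 with h | h | h
      · exact absurd h ha
      · exact absurd h hb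
      · exact h
    have h4 : G.Adj ⟨a.1, by omega⟩ ⟨b.1, by omega⟩ := h3
    exact Or.inr (Or.inr h4.symm)⟩
  loopless := ⟨fun a h => h.1 rfl⟩

lemma GG_adj (n : ℕ) (a b : Fin (n + 7)) (ha : a.1 < 15) (hb : b.1 < 15) :
    (GG n).Adj a b ↔ G.Adj ⟨a.1, ha⟩ ⟨b.1, hb⟩ := by
  constructor
  · rintro ⟨-, h | h | h⟩
    · omega
    · omega
    · exact h
  · intro h
    refine ⟨fun e => ?_, Or.inr (Or.inr h)⟩
    subst e
    exact G.irrefl h

def rr (i : ℕ) : ℕ := if i < 7 then i else i + 7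

theorem key : ∀ u < 8, ∀ v < 8, u ≠ v → ad (rr u) (rr v) = false →
    ad (rr u) (v + 7) = true ∧ ad (v + 7) (u + 7) = true ∧ ad (u + 7) (rr v) = true := by
  decide +kernel

lemma rr_lt {n i : ℕ} (h : i < n) : rr i < n + 7 := by
  unfold rr; split <;> omega

lemma rr_inj {i j : ℕ} (h : rr i = rr j) : i = j := by
  unfold rr at h; split at h <;> split at h <;> omega

def r (n : ℕ) : Fin n ↪ Fin (n + 7) :=
  ⟨fun i => ⟨rr i, rr_lt i.2⟩, fun _ _ h => Fin.ext (rr_inj (congrArg Fin.val h))⟩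

def p (n : ℕ) (i : Fin n) : Fin (n + 7) := ⟨i + 7, by omega⟩

theorem key' (n : ℕ) (u v : Fin n) (h : u ≠ v) (k : ¬ (GG n).Adj (r n u) (r n v)) :
    (GG n).Adj (r n u) (p n v) ∧ (GG n).Adj (p n v) (p n u) ∧ (GG n).Adj (p n u) (r n v) := by
  have h1 : ¬ (15 ≤ rr u ∨ 15 ≤ rr v ∨ ad (rr u) (rr v) = true) := by
    intro h2
    exact k ⟨fun e => h ((r n).injective e), h2⟩
  push Not at h1
  have hu : u.1 < 8 := by
    have := h1.1
    unfold rr at this
    split at this <;> omega
  have hv : v.1 < 8 := by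
    have := h1.2.1
    unfold rr at this
    split at this <;> omega
  obtain ⟨k1, k2, k3⟩ := key u hu v hv (fun e => h (Fin.ext e)) (by simpa using h1.2.2)
  have ne : ∀ a b : ℕ, ad a b = true → a ≠ b := by
    rintro a b h rfl
    simp [ad] at h
  exact ⟨⟨fun e => ne _ _ k1 (congrArg Fin.val e), Or.inr (Or.inr k1)⟩,
    ⟨fun e => ne _ _ k2 (congrArg Fin.val e), Or.inr (Or.inr k2)⟩,
    ⟨fun e => ne _ _ k3 (congrArg Fin.val e), Or.inr (Or.inr k3)⟩⟩

open Classical in
noncomputable def P (n : ℕ) (u v : Fin n) (h : (⊤ : SimpleGraph (Fin n)).Adj u v) :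
    (GG n).Walk (r n u) (r n v) :=
  if e : (GG n).Adj (r n u) (r n v) then .cons e .nil
  else .cons (key' n u v h e).1 (.cons (key' n u v h e).2.1 (.cons (key' n u v h e).2.2 .nil))

open Classical in
theorem P_supp (n : ℕ) (u v : Fin n) (h) : (P n u v h).support =
    if (GG n).Adj (r n u) (r n v) then [r n u, r n v] else [r n u, p n v, p n u, r n v] := by
  unfold P; split_ifs <;> rfl

def ow (x : ℕ) : ℕ := if x < 7 then x else x - 7

lemma ow_rr (i : ℕ) : ow (rr i) = i := by
  unfold ow rr; split_ifs <;> omega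

lemma ow_p (i : ℕ) : ow (i + 7) = i := by
  unfold ow; split_ifs <;> omega

lemma supp_ow (n : ℕ) (u v : Fin n) (h) (x : Fin (n + 7)) (hx : x ∈ (P n u v h).support) :
    ow x = u ∨ ow x = v := by
  classical
  rw [P_supp] at hx
  have e1 : ow (r n u) = u := ow_rr u
  have e2 : ow (r n v) = v := ow_rr v
  have e3 : ow (p n u) = u := ow_p u
  have e4 : ow (p n v) = v := ow_p v
  split_ifs at hx
  · simp only [List.mem_cons, List.not_mem_nil, or_false] at hx
    rcases hx with rfl | rfl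
    · exact Or.inl e1
    · exact Or.inr e2
  · simp only [List.mem_cons, List.not_mem_nil, or_false] at hx
    rcases hx with rfl | rfl | rfl | rfl
    · exact Or.inl e1
    · exact Or.inr e4
    · exact Or.inl e3
    · exact Or.inr e2

theorem scheme (n : ℕ) : IsScheme (GG n) ⊤ (r n) (P n) := by
  classical
  refine ⟨fun u v h => ?_, fun u v h => ⟨?_, ?_⟩, ?_⟩
  · apply Walk.ext_support
    rw [Walk.support_reverse, P_supp, P_supp]
    by_cases e : (GG n).Adj (r n u) (r n v)
    · rw [if_pos e, if_pos e.symm]; rfl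
    · rw [if_neg e, if_neg fun k => e k.symm]; rfl
  · rw [Walk.isPath_def, P_supp]
    have huv : u ≠ v := h
    have hr : r n u ≠ r n v := fun e => huv ((r n).injective e)
    by_cases e : (GG n).Adj (r n u) (r n v)
    · rw [if_pos e]
      simp [hr]
    · rw [if_neg e]
      obtain ⟨k1, k2, k3⟩ := key' n u v h e
      have h1 : (r n u) ≠ (p n u) := by
        intro e2
        have := congrArg Fin.val e2
        change rr u = u.1 + 7 at this
        have h5 : ¬ (15 ≤ rr u.1) := fun h6 => e ⟨hr, Or.inl h6⟩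
        have h7 : ¬ (15 ≤ rr v.1) := fun h6 => e ⟨hr, Or.inr (Or.inl h6)⟩
        have h8 : ¬ (ad (rr u) (rr v) = true) := fun h6 => e ⟨hr, Or.inr (Or.inr h6)⟩
        have hu : u.1 = 7 := by
          unfold rr at this h5
          split at this <;> simp_all
        have hv : v.1 < 8 := by
          unfold rr at h7
          split at h7 <;> omega
        have hkk : ∀ v < 8, v ≠ 7 → ad (rr 7) (rr v) = true := by decide +kernel
        rw [hu] at h8
        exact h8 (hkk v.1 hv (fun e => huv (Fin.ext (hu.trans e.symm))))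
      have h2 : (r n v) ≠ (p n v) := by
        intro e2
        have := congrArg Fin.val e2
        change rr v = v.1 + 7 at this
        have h5 : ¬ (15 ≤ rr u.1) := fun h6 => e ⟨hr, Or.inl h6⟩
        have h7 : ¬ (15 ≤ rr v.1) := fun h6 => e ⟨hr, Or.inr (Or.inl h6)⟩
        have h8 : ¬ (ad (rr u) (rr v) = true) := fun h6 => e ⟨hr, Or.inr (Or.inr h6)⟩
        have hv : v.1 = 7 := by
          unfold rr at this h7
          split at this <;> simp_all
        have hu : u.1 < 8 := by
          unfold rr at h5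
          split at h5 <;> omega
        have hkk : ∀ v < 8, v ≠ 7 → ad (rr v) (rr 7) = true := by decide +kernel
        rw [hv] at h8
        exact h8 (hkk u.1 hu (fun e => huv (Fin.ext (e.trans hv.symm))))
      simp only [List.nodup_cons, List.mem_cons, List.not_mem_nil, or_false, not_or,
        List.nodup_nil, and_true, not_false_eq_true]
      exact ⟨⟨k1.ne, h1, hr⟩, ⟨k2.ne, h2.symm⟩, k3.ne⟩
  · intro w hw
    have := supp_ow n u v h _ hw
    have e : ow (r n w) = w := ow_rr w
    rw [e] at this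
    rcases this with h | h
    · exact Or.inl (Fin.ext h)
    · exact Or.inr (Fin.ext h)
  · rintro S ⟨e0, he0⟩ ⟨x, hx⟩
    have hlt : ow x < n := by
      rcases supp_ow n _ _ _ x (hx e0 he0) with h | h
      · rw [h]; exact Fin.is_lt _
      · rw [h]; exact Fin.is_lt _
    refine ⟨⟨ow x, hlt⟩, fun e he => ?_⟩
    rcases supp_ow n _ _ _ x (hx e he) with h | h
    · exact Or.inl (Fin.ext h)
    · exact Or.inr (Fin.ext h)

theorem reduce (n : ℕ) (hn : 8 ≤ n) (h : HasMinor (GG n) (⊤ : SimpleGraph (Fin n))) :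
    HasMinor G (⊤ : SimpleGraph (Fin 8)) := by
  classical
  obtain ⟨C, c1, c2, c3⟩ := h
  have uq : ∀ x u v, x ∈ C u → x ∈ C v → u = v := fun x u v a b =>
    by_contra fun n => Set.disjoint_left.1 (c2 u v n) a b
  let B : Fin n → Prop := fun i => ∃ x ∈ C i, 15 ≤ x.1
  have hB : Fintype.card {i // B i} ≤ n - 8 := by
    have hx : ∀ i : {i // B i}, ∃ x : Fin (n + 7), x ∈ C i.1 ∧ 15 ≤ x.1 := fun i => i.2
    choose x hx1 hx2 using hx
    have hinj : Function.Injective fun i : {i // B i} =>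
        (⟨(x i).1 - 15, by have := (x i).2; have := hx2 i; omega⟩ : Fin (n - 8)) := by
      intro i j h
      have h1 : (x i).1 - 15 = (x j).1 - 15 := congrArg Fin.val h
      have h2 : x i = x j := Fin.ext (by have := hx2 i; have := hx2 j; omega)
      exact Subtype.ext (uq _ _ _ (hx1 i) (h2 ▸ hx1 j))
    simpa using Fintype.card_le_of_injective _ hinj
  have hA : 8 ≤ Fintype.card {i // ¬ B i} := by
    rw [Fintype.card_subtype_compl, Fintype.card_fin]
    omega
  obtain ⟨σ⟩ := Function.Embedding.nonempty_of_card_le (α := Fin 8) (β := {i // ¬ B i})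
    (by simpa using hA)
  have hlt : ∀ i, ∀ x ∈ C (σ i).1, x.1 < 15 := by
    intro i x hx
    by_contra h
    exact (σ i).2 ⟨x, hx, by omega⟩
  refine ⟨fun i => {y : Fin 15 | ∃ h : y.1 < n + 7, (⟨y.1, h⟩ : Fin (n + 7)) ∈ C (σ i).1},
    fun i => ?_, fun u v huv => ?_, fun u v huv => ?_⟩
  · let f : (GG n).induce (C (σ i).1) →g G.induce
        {y : Fin 15 | ∃ h : y.1 < n + 7, (⟨y.1, h⟩ : Fin (n + 7)) ∈ C (σ i).1} :=
      { toFun := fun x => ⟨⟨x.1.1, hlt i x.1 x.2⟩, x.1.2, x.2⟩
        map_rel' := by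
          intro a b hab
          exact (GG_adj n a.1 b.1 _ _).1 hab }
    refine (c1 (σ i).1).map f ?_
    rintro ⟨y, h1, h2⟩
    exact ⟨⟨⟨y.1, h1⟩, h2⟩, rfl⟩
  · rw [Set.disjoint_left]
    rintro y ⟨h1, h2⟩ ⟨h4, h3⟩
    exact huv (σ.injective (Subtype.ext (uq _ _ _ h2 h3)))
  · have hne : (σ u).1 ≠ (σ v).1 := fun e => huv (σ.injective (Subtype.ext e))
    obtain ⟨a, ha, b, hb, hab⟩ := c3 _ _ hne
    exact ⟨⟨a.1, hlt u a ha⟩, ⟨a.2, ha⟩, ⟨b.1, hlt v b hb⟩, ⟨b.2, hb⟩,
      (GG_adj n a b _ _).1 hab⟩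

/-- **For every `n ≥ 8` the complete graph `K_n` is not weakly contractible**: there is a graph with
`n + 7` vertices which contains a `K_n`-scheme and has no `K_n`-minor. -/
theorem result : ∀ n : ℕ, 8 ≤ n →
    (∃ (G : SimpleGraph (Fin (n + 7))) (r : Fin n ↪ Fin (n + 7))
      (P : ∀ u v, (⊤ : SimpleGraph (Fin n)).Adj u v → G.Walk (r u) (r v)),
      IsScheme G ⊤ r P ∧ ¬ HasMinor G (⊤ : SimpleGraph (Fin n))) ∧
    ¬ WeaklyContractible (⊤ : SimpleGraph (Fin n)) := by
  intro n hn
  have h : ¬ HasMinor (GG n) (⊤ : SimpleGraph (Fin n)) := fun h => no_minor (reduce n hn h)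
  exact ⟨⟨GG n, r n, P n, scheme n, h⟩, fun k => h (k _ (GG n) (r n) (P n) (scheme n))⟩

end Pool.Agent.Results.MP_ed45fc_co.EightOrMore
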